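import Mathlib
import Pool.Agent.H548R3.Pryce

/-!
MP_479f73_an, Q1. If `(E, ℓ_∞)` has the weak maximizing property then `E` is finite dimensional.
-/

set_option autoImplicit false

open Set Filter Topology BoundedContinuousFunction

namespace Pool.Agent.Results.MP_479f73_an.WMPFiniteDim

section Defs

variable (𝕜 : Type*) [RCLike 𝕜] {E : Type*} [NormedAddCommGroup E] [NormedSpace 𝕜 E]
  {F : Type*} [NormedAddCommGroup F] [NormedSpace 𝕜 F]

/-- `(x_n)` converges weakly to `0`. -/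
def WeaklyNull (x : ℕ → E) : Prop :=
  ∀ f : StrongDual 𝕜 E, Tendsto (fun n => f (x n)) atTop (𝓝 0)

variable {𝕜}

/-- `T` attains its norm at a point of the unit sphere. -/
def AttainsNorm (T : E →L[𝕜] F) : Prop := ∃ x : E, ‖x‖ = 1 ∧ ‖T x‖ = ‖T‖

/-- `(x_n)` is a maximizing sequence for `T`. -/
def IsMaximizing (T : E →L[𝕜] F) (x : ℕ → E) : Prop :=
  (∀ n, ‖x n‖ = 1) ∧ Tendsto (fun n => ‖T (x n)‖) atTop (𝓝 ‖T‖)

variable (𝕜 E F)

/-- The pair `(E, F)` has the weak maximizing property. -/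
def HasWMP : Prop :=
  ∀ T : E →L[𝕜] F, (∃ x : ℕ → E, IsMaximizing T x ∧ ¬ WeaklyNull 𝕜 x) → AttainsNorm T

end Defs

section Proof

variable {𝕜 : Type*} [RCLike 𝕜] {E : Type*} [NormedAddCommGroup E] [NormedSpace 𝕜 E]

/-- The operator `x ↦ (h_k x)_k` into `ℓ_∞`. -/
noncomputable def seqOp (h : ℕ → StrongDual 𝕜 E) (C : ℝ) (hC : ∀ k, ‖h k‖ ≤ C) :
    E →L[𝕜] (ℕ →ᵇ 𝕜) :=
  LinearMap.mkContinuous
    { toFun := fun x => BoundedContinuousFunction.ofNormedAddCommGroupDiscrete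
        (fun k => h k x) (C * ‖x‖) (fun k => (h k).le_of_opNorm_le (hC k) x)
      map_add' := fun x y => by ext k; simp
      map_smul' := fun c x => by ext k; simp } C (fun x => by
        refine (BoundedContinuousFunction.norm_le ?_).2 fun k => ?_
        · exact mul_nonneg ((norm_nonneg _).trans (hC 0)) (norm_nonneg x)
        · exact (h k).le_of_opNorm_le (hC k) x)

lemma seqOp_apply (h : ℕ → StrongDual 𝕜 E) (C : ℝ) (hC : ∀ k, ‖h k‖ ≤ C) (x : E) (k : ℕ) :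
    seqOp h C hC x k = h k x := rfl

lemma norm_seqOp_le (h : ℕ → StrongDual 𝕜 E) (C : ℝ) (hC : ∀ k, ‖h k‖ ≤ C) :
    ‖seqOp h C hC‖ ≤ C :=
  LinearMap.mkContinuous_norm_le _ ((norm_nonneg _).trans (hC 0)) _

lemma norm_seqOp_apply_le (h : ℕ → StrongDual 𝕜 E) (C : ℝ) (hC : ∀ k, ‖h k‖ ≤ C) (x : E)
    {c : ℝ} (hc : 0 ≤ c) (hx : ∀ k, ‖h k x‖ ≤ c) : ‖seqOp h C hC x‖ ≤ c :=
  (BoundedContinuousFunction.norm_le hc).2 hx

lemma norm_apply_le_seqOp (h : ℕ → StrongDual 𝕜 E) (C : ℝ) (hC : ∀ k, ‖h k‖ ≤ C) (x : E) (k : ℕ) :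
    ‖h k x‖ ≤ ‖seqOp h C hC x‖ :=
  BoundedContinuousFunction.norm_coe_le_norm (seqOp h C hC x) k

/-- unit vectors on which a functional is almost norming -/
lemma exists_unit {F : Type*} [NormedAddCommGroup F] [NormedSpace 𝕜 F] (g : E →L[𝕜] F) {r : ℝ}
    (h0 : 0 ≤ r) (hr : r < ‖g‖) : ∃ x : E, ‖x‖ = 1 ∧ r < ‖g x‖ := by
  obtain ⟨x, hx1, hx⟩ := g.exists_lt_apply_of_lt_opNorm hr
  have hx0 : x ≠ 0 := by
    rintro rfl
    rw [map_zero, norm_zero] at hx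
    linarith
  have hpos : 0 < ‖x‖ := norm_pos_iff.2 hx0
  refine ⟨((‖x‖⁻¹ : ℝ) : 𝕜) • x, ?_, ?_⟩
  · rw [norm_smul, RCLike.norm_ofReal, abs_of_nonneg (by positivity)]
    exact inv_mul_cancel₀ hpos.ne'
  · rw [map_smul, norm_smul, RCLike.norm_ofReal, abs_of_nonneg (by positivity),
      lt_inv_mul_iff₀ hpos]
    nlinarith

/-- functionals attain their norms -/
lemma attains_functional (hW : HasWMP 𝕜 E (ℕ →ᵇ 𝕜)) (φ : StrongDual 𝕜 E) (hφ : φ ≠ 0) :
    ∃ x : E, ‖x‖ = 1 ∧ ‖φ x‖ = ‖φ‖ := by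
  have hpos : 0 < ‖φ‖ := norm_pos_iff.2 hφ
  set T := seqOp (fun _ : ℕ => φ) ‖φ‖ (fun _ => le_rfl) with hT
  have happ : ∀ x, ‖T x‖ = ‖φ x‖ := by
    intro x
    refine le_antisymm ?_ ?_
    · exact norm_seqOp_apply_le _ _ _ _ (norm_nonneg _) fun k => le_rfl
    · exact norm_apply_le_seqOp (fun _ : ℕ => φ) _ _ x 0
  have hnorm : ‖T‖ = ‖φ‖ := by
    refine le_antisymm (norm_seqOp_le _ _ _) ?_
    refine φ.opNorm_le_bound (norm_nonneg _) fun x => ?_
    rw [← happ]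
    exact T.le_opNorm x
  have hex : ∀ n : ℕ, ∃ x : E, ‖x‖ = 1 ∧ ‖φ‖ * (1 - 1 / ((n : ℝ) + 1)) < ‖φ x‖ := by
    intro n
    have h1 : (0 : ℝ) < 1 / ((n : ℝ) + 1) := by positivity
    have h2 : 1 / ((n : ℝ) + 1) ≤ 1 := by
      rw [div_le_one (by positivity)]
      have : (0 : ℝ) ≤ n := Nat.cast_nonneg n
      linarith
    refine exists_unit φ ?_ ?_
    · exact mul_nonneg hpos.le (by linarith)
    · nlinarith
  choose x hx1 hx2 using hex
  have hlim : Tendsto (fun n => ‖φ (x n)‖) atTop (𝓝 ‖φ‖) := by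
    refine tendsto_of_tendsto_of_tendsto_of_le_of_le (g := fun n : ℕ => ‖φ‖ * (1 - 1 / ((n : ℝ) + 1)))
      (h := fun _ => ‖φ‖) ?_ tendsto_const_nhds (fun n => (hx2 n).le) (fun n => ?_)
    · have := (tendsto_one_div_add_atTop_nhds_zero_nat (𝕜 := ℝ)).const_sub 1 |>.const_mul ‖φ‖
      simpa using this
    · have := φ.le_opNorm (x n)
      rwa [hx1, mul_one] at this
  obtain ⟨y, hy1, hy2⟩ := hW T ⟨x, ⟨hx1, by simpa only [happ, hnorm] using hlim⟩, fun hw => by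
    have h1 := (hw φ).norm
    rw [norm_zero] at h1
    exact hpos.ne (tendsto_nhds_unique h1 hlim)⟩
  exact ⟨y, hy1, by rw [← happ, hy2, hnorm]⟩

/-- Adding a far term of a pointwise null sequence does not increase the norm much. -/
lemma eventually_norm_add_le (hW : HasWMP 𝕜 E (ℕ →ᵇ 𝕜)) (f : StrongDual 𝕜 E) (hf : ‖f‖ ≤ 1)
    (g : ℕ → StrongDual 𝕜 E) (hg : ∀ n, ‖g n‖ ≤ 1) (hg0 : ∀ x, Tendsto (fun n => g n x) atTop (𝓝 0))
    {ε : ℝ} (hε : 0 < ε) : ∀ᶠ n in atTop, ‖f + g n‖ ≤ 1 + ε := by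
  by_contra hcon
  rw [not_eventually] at hcon
  obtain ⟨u, hu, hu2⟩ := extraction_of_frequently_atTop hcon
  have hN : ∀ k, 1 + ε < ‖f + g (u k)‖ := fun k => not_le.1 (hu2 k)
  have hNpos : ∀ k, 0 < ‖f + g (u k)‖ := fun k => lt_trans (by linarith) (hN k)
  -- the functionals
  let c : ℕ → ℝ := fun k => 1 - 1 / ((k : ℝ) + 1 + 1)
  have hc0 : ∀ k, 0 < c k := by
    intro k
    have : 1 / ((k : ℝ) + 1 + 1) < 1 := by
      rw [div_lt_one (by positivity)]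
      have : (0 : ℝ) ≤ k := Nat.cast_nonneg k
      linarith
    simp only [c]
    linarith
  have hc1 : ∀ k, c k < 1 := by
    intro k
    have : (0 : ℝ) < 1 / ((k : ℝ) + 1 + 1) := by positivity
    simp only [c]
    linarith
  have hcl : Tendsto c atTop (𝓝 1) := by
    have h1 := ((tendsto_one_div_add_atTop_nhds_zero_nat (𝕜 := ℝ)).comp
      (tendsto_add_atTop_nat 1)).const_sub 1
    rw [sub_zero] at h1
    refine h1.congr fun k => ?_
    simp [c]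
  let h : ℕ → StrongDual 𝕜 E := fun k => ((c k / ‖f + g (u k)‖ : ℝ) : 𝕜) • (f + g (u k))
  have hh : ∀ k, ‖h k‖ = c k := by
    intro k
    simp only [h]
    rw [norm_smul, RCLike.norm_ofReal, abs_of_pos (div_pos (hc0 k) (hNpos k)),
      div_mul_cancel₀ _ (hNpos k).ne']
  have hhx : ∀ k x, ‖h k x‖ ≤ (‖f x‖ + ‖g (u k) x‖) / (1 + ε) := by
    intro k x
    have h1 : h k x = ((c k / ‖f + g (u k)‖ : ℝ) : 𝕜) * (f x + g (u k) x) := rfl
    rw [h1, norm_mul, RCLike.norm_ofReal, abs_of_pos (div_pos (hc0 k) (hNpos k)), div_mul_eq_mul_div]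
    refine div_le_div₀ (by positivity) ?_ (by positivity) (hN k).le
    calc c k * ‖f x + g (u k) x‖ ≤ 1 * ‖f x + g (u k) x‖ :=
          mul_le_mul_of_nonneg_right (hc1 k).le (norm_nonneg _)
      _ = ‖f x + g (u k) x‖ := one_mul _
      _ ≤ _ := norm_add_le _ _
  set T := seqOp h 1 (fun k => (hh k).le.trans (hc1 k).le) with hT
  have hTle : ‖T‖ ≤ 1 := norm_seqOp_le _ _ _
  have hTnorm : ‖T‖ = 1 := by
    refine le_antisymm hTle (le_of_tendsto hcl (Eventually.of_forall fun k => ?_))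
    rw [← hh k]
    refine (h k).opNorm_le_bound (norm_nonneg _) fun x => ?_
    exact (norm_apply_le_seqOp h _ _ x k).trans (T.le_opNorm x)
  have hgu : ∀ x, Tendsto (fun k => g (u k) x) atTop (𝓝 0) := fun x =>
    (hg0 x).comp hu.tendsto_atTop
  -- `T` does not attain its norm
  have hnot : ¬ AttainsNorm T := by
    rintro ⟨x, hx, hTx⟩
    rw [hTnorm] at hTx
    have hfx : ‖f x‖ ≤ 1 := by
      have := f.le_opNorm x
      rw [hx, mul_one] at this
      exact this.trans hf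
    have h1 : Tendsto (fun k => (‖f x‖ + ‖g (u k) x‖) / (1 + ε)) atTop (𝓝 (‖f x‖ / (1 + ε))) := by
      have h2 := ((hgu x).norm.const_add ‖f x‖).div_const (1 + ε)
      rwa [norm_zero, add_zero] at h2
    have h3 : ‖f x‖ / (1 + ε) < 1 := by
      rw [div_lt_one (by positivity)]
      linarith
    obtain ⟨r, hr1, hr2⟩ := exists_between h3
    have hr0 : 0 ≤ r := le_trans (by positivity) hr1.le
    obtain ⟨K, hK⟩ := eventually_atTop.1 (h1.eventually (gt_mem_nhds hr1))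
    -- the supremum over the first `K` terms
    obtain ⟨s, hs0, hs1, hs⟩ : ∃ s : ℝ, 0 ≤ s ∧ s < 1 ∧ ∀ k < K, c k ≤ s := by
      clear hK
      induction K with
      | zero => exact ⟨0, le_rfl, by norm_num, fun k hk => absurd hk (Nat.not_lt_zero k)⟩
      | succ K ih =>
        obtain ⟨s, hs0, hs1, hs⟩ := ih
        refine ⟨max s (c K), le_max_of_le_left hs0, max_lt hs1 (hc1 K), fun k hk => ?_⟩
        rcases Nat.lt_succ_iff_lt_or_eq.1 hk with hk | rfl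
        · exact le_max_of_le_left (hs k hk)
        · exact le_max_right _ _
    have h4 : ‖T x‖ ≤ max r s := by
      refine norm_seqOp_apply_le _ _ _ _ (le_max_of_le_left hr0) fun k => ?_
      rcases lt_or_ge k K with hk | hk
      · refine le_max_of_le_right (le_trans ?_ (hs k hk))
        have := (h k).le_opNorm x
        rwa [hx, mul_one, hh] at this
      · exact le_max_of_le_left ((hhx k x).trans (hK k hk).le)
    have h5 : max r s < 1 := max_lt hr2 hs1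
    linarith
  -- a maximizing sequence
  have hex : ∀ k : ℕ, ∃ x : E, ‖x‖ = 1 ∧ c k * c k < ‖h k x‖ := by
    intro k
    refine exists_unit (h k) (mul_nonneg (hc0 k).le (hc0 k).le) ?_
    rw [hh]
    have := mul_lt_mul_of_pos_left (hc1 k) (hc0 k)
    rwa [mul_one] at this
  choose x hx1 hx2 using hex
  have hccl : Tendsto (fun k => c k * c k) atTop (𝓝 1) := by simpa using hcl.mul hcl
  have hmax : IsMaximizing T x := by
    refine ⟨hx1, ?_⟩
    rw [hTnorm]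
    refine tendsto_of_tendsto_of_tendsto_of_le_of_le hccl tendsto_const_nhds (fun k => ?_)
      (fun k => ?_)
    · exact (hx2 k).le.trans (norm_apply_le_seqOp h _ _ (x k) k)
    · have := T.le_opNorm (x k)
      rwa [hx1, mul_one, hTnorm] at this
  have hweak : WeaklyNull 𝕜 x := by
    by_contra hw
    exact hnot (hW T ⟨x, hmax, hw⟩)
  have h6 : Tendsto (fun k => (‖f (x k)‖ + 1) / (1 + ε)) atTop (𝓝 (1 / (1 + ε))) := by
    have h7 := ((hweak f).norm.add_const 1).div_const (1 + ε)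
    rwa [norm_zero, zero_add] at h7
  have h8 : (1 : ℝ) ≤ 1 / (1 + ε) := by
    refine le_of_tendsto_of_tendsto hccl h6 (Eventually.of_forall fun k => ?_)
    refine (hx2 k).le.trans ((hhx k (x k)).trans ?_)
    refine div_le_div_of_nonneg_right ?_ (by positivity)
    have h9 := (g (u k)).le_opNorm (x k)
    rw [hx1, mul_one] at h9
    have h10 := hg (u k)
    linarith
  rw [le_div_iff₀ (by positivity)] at h8
  linarith

lemma eventually_compact {X : Type*} [TopologicalSpace X] {K : Set X} (hK : IsCompact K)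
    (P : X → ℕ → Prop)
    (h : ∀ x ∈ K, {q : X × ℕ | P q.1 q.2} ∈ (𝓝 x : Filter X) ×ˢ (atTop : Filter ℕ)) :
    ∀ᶠ n in atTop, ∀ x ∈ K, P x n := by
  have h5 : {q : X × ℕ | P q.1 q.2} ∈ (𝓝ˢ K) ×ˢ (atTop : Filter ℕ) :=
    hK.mem_nhdsSet_prod_of_forall h
  obtain ⟨t₁, ht₁, t₂, ht₂, hsub⟩ := mem_prod_iff.1 h5
  filter_upwards [ht₂] with n hn x hx
  exact hsub (mk_mem_prod (subset_of_mem_nhdsSet ht₁ hx) hn)

lemma norm_perturb {V : Type*} [NormedAddCommGroup V] [NormedSpace 𝕜 V] {f f' v : V} {a a' : 𝕜}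
    {ε : ℝ} (hε : 0 ≤ ε) (h1 : ‖f + a • v‖ ≤ 1 + ε) (h2 : ‖f' - f‖ ≤ ε) (h3 : ‖a' - a‖ ≤ ε)
    (hv : ‖v‖ ≤ 1) : ‖f' + a' • v‖ ≤ 1 + 3 * ε := by
  have h4 : f' + a' • v = (f + a • v) + (f' - f) + (a' - a) • v := by
    rw [sub_smul]; abel
  rw [h4]
  refine (norm_add₃_le).trans ?_
  have h5 : ‖(a' - a) • v‖ ≤ ε := by
    rw [norm_smul]
    calc ‖a' - a‖ * ‖v‖ ≤ ε * 1 := mul_le_mul h3 hv (norm_nonneg _) hε
      _ = ε := mul_one _
  linarith

/-- uniform version over compact sets and over the unit ball of scalars -/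
lemma eventually_uniform (hW : HasWMP 𝕜 E (ℕ →ᵇ 𝕜)) (K : Set (StrongDual 𝕜 E))
    (hK : IsCompact K) (hK1 : ∀ f ∈ K, ‖f‖ ≤ 1)
    (g : ℕ → StrongDual 𝕜 E) (hg : ∀ n, ‖g n‖ ≤ 1) (hg0 : ∀ x, Tendsto (fun n => g n x) atTop (𝓝 0))
    {ε : ℝ} (hε : 0 < ε) :
    ∀ᶠ n in atTop, ∀ f ∈ K, ∀ a : 𝕜, ‖a‖ ≤ 1 → ‖f + a • g n‖ ≤ 1 + ε := by
  have hP : IsCompact (K ×ˢ Metric.closedBall (0 : 𝕜) 1) := hK.prod (isCompact_closedBall _ _)
  have hε3 : 0 < ε / 3 := by positivity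
  -- local statement
  have hloc : ∀ p ∈ K ×ˢ Metric.closedBall (0 : 𝕜) 1,
      {q : (StrongDual 𝕜 E × 𝕜) × ℕ | ‖q.1.1 + q.1.2 • g q.2‖ ≤ 1 + ε} ∈
        (𝓝 p : Filter (StrongDual 𝕜 E × 𝕜)) ×ˢ (atTop : Filter ℕ) := by
    rintro ⟨f, a⟩ ⟨hfK, ha⟩
    have hfK' : f ∈ K := hfK
    have ha' : ‖a‖ ≤ 1 := by
      have : a ∈ Metric.closedBall (0 : 𝕜) 1 := ha
      rwa [mem_closedBall_zero_iff] at this
    have h1 : ∀ᶠ n in atTop, ‖f + a • g n‖ ≤ 1 + ε / 3 :=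
      eventually_norm_add_le hW f (hK1 f hfK') (fun n => a • g n)
        (fun n => by
          rw [norm_smul]
          exact mul_le_one₀ ha' (norm_nonneg _) (hg n))
        (fun x => by
          have := (hg0 x).const_mul a
          rw [mul_zero] at this
          exact this) hε3
    rw [mem_prod_iff]
    refine ⟨Metric.closedBall f (ε / 3) ×ˢ Metric.closedBall a (ε / 3),
      prod_mem_nhds (Metric.closedBall_mem_nhds _ hε3) (Metric.closedBall_mem_nhds _ hε3),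
      _, h1, ?_⟩
    rintro ⟨⟨f', a'⟩, n⟩ ⟨⟨hq1, hq2⟩, hq3⟩
    have hq1' : ‖f' - f‖ ≤ ε / 3 := by
      have : f' ∈ Metric.closedBall f (ε / 3) := hq1
      rwa [mem_closedBall_iff_norm] at this
    have hq2' : ‖a' - a‖ ≤ ε / 3 := by
      have : a' ∈ Metric.closedBall a (ε / 3) := hq2
      rwa [mem_closedBall_iff_norm] at this
    have hq3' : ‖f + a • g n‖ ≤ 1 + ε / 3 := hq3
    have h3 := norm_perturb hε3.le hq3' hq1' hq2' (hg n)
    show ‖f' + a' • g n‖ ≤ 1 + ε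
    linarith
  have h5 := eventually_compact hP (fun p n => ‖p.1 + p.2 • g n‖ ≤ 1 + ε) hloc
  filter_upwards [h5] with n hn f hf a ha
  have h6 : (f, a) ∈ K ×ˢ Metric.closedBall (0 : 𝕜) 1 :=
    mk_mem_prod hf (mem_closedBall_zero_iff.2 ha)
  exact hn (f, a) h6

/-- one step of the construction -/
lemma exists_step (hW : HasWMP 𝕜 E (ℕ →ᵇ 𝕜)) (K : Set (StrongDual 𝕜 E))
    (hK : IsCompact K) (hK1 : ∀ f ∈ K, ‖f‖ < 1)
    (g : ℕ → StrongDual 𝕜 E) (hg : ∀ n, ‖g n‖ ≤ 1) (hg0 : ∀ x, Tendsto (fun n => g n x) atTop (𝓝 0))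
    {b : ℝ} (hb0 : 0 < b) (hb : b < 1) :
    ∃ n, ∀ f ∈ K, ∀ a : 𝕜, ‖a‖ ≤ 1 → ‖f + a • ((b : 𝕜) • g n)‖ < 1 := by
  obtain ⟨M, hM1, hM⟩ : ∃ M : ℝ, M < 1 ∧ ∀ f ∈ K, ‖f‖ ≤ M := by
    rcases K.eq_empty_or_nonempty with rfl | hne
    · exact ⟨0, one_pos, fun f hf => absurd hf (notMem_empty f)⟩
    · obtain ⟨f₀, hf₀, hmax⟩ := hK.exists_isMaxOn hne (f := fun f => ‖f‖) continuous_norm.continuousOn
      exact ⟨‖f₀‖, hK1 f₀ hf₀, fun f hf => hmax hf⟩
  set m := max M b with hm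
  have hm0 : 0 < m := lt_max_of_lt_right hb0
  have hm1 : m < 1 := max_lt hM1 hb
  set ε := (1 - m) / 2 with hε
  have hε0 : 0 < ε := by rw [hε]; linarith
  have hme : m * (1 + ε) < 1 := by
    rw [hε]; nlinarith
  have hK2 : IsCompact ((fun f : StrongDual 𝕜 E => ((m⁻¹ : ℝ) : 𝕜) • f) '' K) :=
    hK.image (by fun_prop)
  obtain ⟨n, hn⟩ := (eventually_uniform hW _ hK2 (by
    rintro _ ⟨f, hf, rfl⟩
    simp only
    rw [norm_smul, RCLike.norm_ofReal, abs_of_pos (inv_pos.2 hm0), inv_mul_le_iff₀ hm0, mul_one]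
    exact (hM f hf).trans (le_max_left _ _)) g hg hg0 hε0).exists
  refine ⟨n, fun f hf a ha => ?_⟩
  have h1 := hn _ (mem_image_of_mem _ hf) (((b / m : ℝ) : 𝕜) * a) (by
    rw [norm_mul, RCLike.norm_ofReal, abs_of_pos (div_pos hb0 hm0)]
    exact mul_le_one₀ ((div_le_one hm0).2 (le_max_right _ _)) (norm_nonneg _) ha)
  have h2 : f + a • ((b : 𝕜) • g n) =
      (m : 𝕜) • (((m⁻¹ : ℝ) : 𝕜) • f + (((b / m : ℝ) : 𝕜) * a) • g n) := by
    have hm' : (m : 𝕜) ≠ 0 := by exact_mod_cast hm0.ne'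
    rw [smul_add, smul_smul, smul_smul, smul_smul]
    push_cast
    rw [mul_inv_cancel₀ hm', one_smul]
    congr 2
    field_simp
  rw [h2, norm_smul, RCLike.norm_ofReal, abs_of_pos hm0]
  exact lt_of_le_of_lt (mul_le_mul_of_nonneg_left h1 hm0.le) hme

/-- a sequence of functionals with unconditional partial sums in the unit ball -/
lemma exists_c0 (hW : HasWMP 𝕜 E (ℕ →ᵇ 𝕜))
    (g : ℕ → StrongDual 𝕜 E) (hg : ∀ n, ‖g n‖ = 1) (hg0 : ∀ x, Tendsto (fun n => g n x) atTop (𝓝 0))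
    (b : ℕ → ℝ) (hb0 : ∀ k, 0 < b k) (hb : ∀ k, b k < 1) :
    ∃ G : ℕ → StrongDual 𝕜 E, (∀ k, ‖G k‖ = b k) ∧
      ∀ (a : ℕ → 𝕜), (∀ j, ‖a j‖ ≤ 1) → ∀ N, ‖∑ j ∈ Finset.range N, a j • G j‖ ≤ 1 := by
  let P : Set (StrongDual 𝕜 E) → Prop := fun K => IsCompact K ∧ ∀ f ∈ K, ‖f‖ < 1
  have hstep : ∀ (k : ℕ) (K : {K // P K}), ∃ n, ∀ f ∈ K.1, ∀ a : 𝕜, ‖a‖ ≤ 1 →
      ‖f + a • ((b k : 𝕜) • g n)‖ < 1 := fun k K =>
    exists_step hW K.1 K.2.1 K.2.2 g (fun n => (hg n).le) hg0 (hb0 k) (hb k)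
  choose n hn using hstep
  let nxt : ℕ → {K // P K} → {K // P K} := fun k K =>
    ⟨(fun p : StrongDual 𝕜 E × 𝕜 => p.1 + p.2 • ((b k : 𝕜) • g (n k K))) ''
      (K.1 ×ˢ Metric.closedBall (0 : 𝕜) 1), by
      refine ⟨(K.2.1.prod (isCompact_closedBall _ _)).image (by fun_prop), ?_⟩
      rintro _ ⟨⟨f, a⟩, ⟨hf, ha⟩, rfl⟩
      exact hn k K f hf a (by simpa using ha)⟩
  let S : ℕ → {K // P K} := fun N => Nat.rec ⟨{0}, isCompact_singleton, by simp⟩ nxt N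
  have hS0 : (0 : StrongDual 𝕜 E) ∈ (S 0).1 := rfl
  have hSsucc : ∀ N, S (N + 1) = nxt N (S N) := fun N => rfl
  refine ⟨fun k => (b k : 𝕜) • g (n k (S k)), fun k => ?_, fun a ha N => ?_⟩
  · rw [norm_smul, hg, mul_one, RCLike.norm_ofReal, abs_of_pos (hb0 k)]
  · have hmem : ∑ j ∈ Finset.range N, a j • ((b j : 𝕜) • g (n j (S j))) ∈ (S N).1 := by
      induction N with
      | zero => simpa using hS0
      | succ N ih =>
        rw [Finset.sum_range_succ, hSsucc]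
        refine ⟨(_, a N), ⟨ih, ?_⟩, rfl⟩
        simpa using ha N
    exact ((S N).2.2 _ hmem).le

lemma no_null (hW : HasWMP 𝕜 E (ℕ →ᵇ 𝕜))
    (g : ℕ → StrongDual 𝕜 E) (hg : ∀ n, ‖g n‖ = 1)
    (hg0 : ∀ x, Tendsto (fun n => g n x) atTop (𝓝 0)) : False := by
  let b : ℕ → ℝ := fun k => 1 - 1 / ((k : ℝ) + 1 + 1)
  have hb0 : ∀ k, 0 < b k := by
    intro k
    have : 1 / ((k : ℝ) + 1 + 1) < 1 := by
      rw [div_lt_one (by positivity)]
      have : (0 : ℝ) ≤ k := Nat.cast_nonneg k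
      linarith
    simp only [b]
    linarith
  have hb1 : ∀ k, b k < 1 := by
    intro k
    have : (0 : ℝ) < 1 / ((k : ℝ) + 1 + 1) := by positivity
    simp only [b]
    linarith
  have hbl : Tendsto b atTop (𝓝 1) := by
    have h1 := ((tendsto_one_div_add_atTop_nhds_zero_nat (𝕜 := ℝ)).comp
      (tendsto_add_atTop_nat 1)).const_sub 1
    rw [sub_zero] at h1
    refine h1.congr fun k => ?_
    simp [b]
  obtain ⟨G, hG, hG2⟩ := exists_c0 hW g hg hg0 b hb0 hb1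
  -- the sums of the values
  have hsum : ∀ (x : E) (s : Finset ℕ), ∑ j ∈ s, ‖G j x‖ ≤ ‖x‖ := by
    intro x s
    obtain ⟨N, hN⟩ : ∃ N, s ⊆ Finset.range N := s.exists_nat_subset_range
    have h1 : ∀ j, ∃ a : 𝕜, ‖a‖ = 1 ∧ ((‖G j x‖ : ℝ) : 𝕜) = a * G j x := fun j =>
      RCLike.exists_norm_eq_mul_self (G j x)
    choose a ha1 ha2 using h1
    have h2 := hG2 a (fun j => (ha1 j).le) N
    have h3 : (∑ j ∈ Finset.range N, a j • G j) x = ((∑ j ∈ Finset.range N, ‖G j x‖ : ℝ) : 𝕜) := by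
      rw [_root_.sum_apply, RCLike.ofReal_sum]
      exact Finset.sum_congr rfl fun j _ => (ha2 j).symm
    have h4 := (∑ j ∈ Finset.range N, a j • G j).le_of_opNorm_le h2 x
    rw [h3, RCLike.norm_ofReal, abs_of_nonneg (Finset.sum_nonneg fun j _ => norm_nonneg _),
      one_mul] at h4
    exact (Finset.sum_le_sum_of_subset_of_nonneg hN fun j _ _ => norm_nonneg _).trans h4
  have hsummable : ∀ x : E, Summable fun j => ‖G j x‖ := fun x =>
    summable_of_sum_le (fun j => norm_nonneg _) (hsum x)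
  have htsum : ∀ x : E, ∑' j, ‖G j x‖ ≤ ‖x‖ := fun x =>
    Real.tsum_le_of_sum_le (fun j => norm_nonneg _) (hsum x)
  have hs2 : ∀ x : E, Summable fun j => ‖((b j : ℝ) : 𝕜) * G j x‖ := by
    intro x
    refine Summable.of_nonneg_of_le (fun j => norm_nonneg _) (fun j => ?_) (hsummable x)
    rw [norm_mul, RCLike.norm_ofReal, abs_of_pos (hb0 j)]
    exact mul_le_of_le_one_left (norm_nonneg _) (hb1 j).le
  have hs3 : ∀ x : E, Summable fun j => ((b j : ℝ) : 𝕜) * G j x := fun x => (hs2 x).of_norm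
  have hnb : ∀ x : E, ‖∑' j, ((b j : ℝ) : 𝕜) * G j x‖ ≤ ∑' j, b j * ‖G j x‖ := by
    intro x
    refine (norm_tsum_le_tsum_norm (hs2 x)).trans (le_of_eq ?_)
    refine tsum_congr fun j => ?_
    rw [norm_mul, RCLike.norm_ofReal, abs_of_pos (hb0 j)]
  have hs4 : ∀ x : E, Summable fun j => b j * ‖G j x‖ := by
    intro x
    refine (hs2 x).congr fun j => ?_
    rw [norm_mul, RCLike.norm_ofReal, abs_of_pos (hb0 j)]
  let φ : StrongDual 𝕜 E := LinearMap.mkContinuous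
    { toFun := fun x => ∑' j, ((b j : ℝ) : 𝕜) * G j x
      map_add' := fun x y => by
        rw [← (hs3 x).tsum_add (hs3 y)]
        refine tsum_congr fun j => ?_
        rw [map_add, mul_add]
      map_smul' := fun c x => by
        rw [RingHom.id_apply, smul_eq_mul, ← tsum_mul_left]
        refine tsum_congr fun j => ?_
        rw [map_smul, smul_eq_mul]
        ring } 1 (fun x => by
        rw [one_mul]
        refine (hnb x).trans (((hs4 x).tsum_le_tsum (fun j => ?_) (hsummable x)).trans (htsum x))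
        exact mul_le_of_le_one_left (norm_nonneg _) (hb1 j).le)
  have hφ : ∀ x, φ x = ∑' j, ((b j : ℝ) : 𝕜) * G j x := fun x => rfl
  have hφ1 : ‖φ‖ ≤ 1 := LinearMap.mkContinuous_norm_le _ zero_le_one _
  -- the norm of `φ` is one
  have hφ2 : ‖φ‖ = 1 := by
    refine le_antisymm hφ1 ?_
    have hlow : ∀ k, b k * (b k * b k) - (1 - b k * b k) ≤ ‖φ‖ := by
      intro k
      obtain ⟨x, hx1, hx2⟩ := exists_unit (G k) (r := b k * b k) (mul_nonneg (hb0 k).le (hb0 k).le) (by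
        rw [hG]
        have := mul_lt_mul_of_pos_left (hb1 k) (hb0 k)
        rwa [mul_one] at this)
      have h1 : φ x = ((b k : ℝ) : 𝕜) * G k x + ∑' j, ite (j = k) 0 (((b j : ℝ) : 𝕜) * G j x) := by
        rw [hφ]
        exact (hs3 x).tsum_eq_add_tsum_ite k
      have h2 : ∑' j, ‖G j x‖ = ‖G k x‖ + ∑' j, ite (j = k) 0 ‖G j x‖ :=
        (hsummable x).tsum_eq_add_tsum_ite k
      have h3 := htsum x
      rw [hx1, h2] at h3
      have hs5 : Summable fun j => ite (j = k) 0 ‖G j x‖ := by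
        refine Summable.of_nonneg_of_le (fun j => ?_) (fun j => ?_) (hsummable x)
        · split_ifs
          · exact le_rfl
          · exact norm_nonneg _
        · split_ifs
          · exact norm_nonneg _
          · exact le_rfl
      have h4 : ‖∑' j, ite (j = k) 0 (((b j : ℝ) : 𝕜) * G j x)‖ ≤ ∑' j, ite (j = k) 0 ‖G j x‖ := by
        refine tsum_of_norm_bounded hs5.hasSum fun j => ?_
        split_ifs
        · rw [norm_zero]
        · rw [norm_mul, RCLike.norm_ofReal, abs_of_pos (hb0 j)]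
          exact mul_le_of_le_one_left (norm_nonneg _) (hb1 j).le
      have h5 : ‖φ x‖ ≤ ‖φ‖ := by
        have := φ.le_opNorm x
        rwa [hx1, mul_one] at this
      have h6 : ‖((b k : ℝ) : 𝕜) * G k x‖ = b k * ‖G k x‖ := by
        rw [norm_mul, RCLike.norm_ofReal, abs_of_pos (hb0 k)]
      have h7 : ‖((b k : ℝ) : 𝕜) * G k x‖ ≤ ‖φ x‖ +
          ‖∑' j, ite (j = k) 0 (((b j : ℝ) : 𝕜) * G j x)‖ := by
        have : ((b k : ℝ) : 𝕜) * G k x = φ x - ∑' j, ite (j = k) 0 (((b j : ℝ) : 𝕜) * G j x) := by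
          rw [h1]; ring
        rw [this]
        exact norm_sub_le _ _
      have h8 : b k * (b k * b k) ≤ b k * ‖G k x‖ := mul_le_mul_of_nonneg_left hx2.le (hb0 k).le
      linarith
    have hlim : Tendsto (fun k => b k * (b k * b k) - (1 - b k * b k)) atTop (𝓝 1) := by
      have := (hbl.mul (hbl.mul hbl)).sub ((hbl.mul hbl).const_sub 1)
      simpa using this
    exact le_of_tendsto hlim (Eventually.of_forall hlow)
  -- but it is not attained
  obtain ⟨x, hx1, hx2⟩ := attains_functional hW φ (by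
    intro h0
    rw [h0, norm_zero] at hφ2
    exact zero_ne_one hφ2)
  rw [hφ2] at hx2
  have h1 : ∃ k, G k x ≠ 0 := by
    by_contra hcon
    push Not at hcon
    rw [hφ] at hx2
    simp [hcon] at hx2
  obtain ⟨k, hk⟩ := h1
  have h2 : ∑' j, b j * ‖G j x‖ < ∑' j, ‖G j x‖ := by
    refine Summable.tsum_lt_tsum (i := k) (fun j => ?_) ?_ (hs4 x) (hsummable x)
    · exact mul_le_of_le_one_left (norm_nonneg _) (hb1 j).le
    · have := norm_pos_iff.2 hk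
      exact mul_lt_of_lt_one_left this (hb1 k)
  have h3 := htsum x
  have h4 := hnb x
  rw [← hφ, hx2] at h4
  rw [hx1] at h3
  linarith

/-- real functionals attain their norms -/
lemma real_attains [NormedSpace ℝ E] [IsScalarTower ℝ 𝕜 E]
    (hatt : ∀ φ : StrongDual 𝕜 E, φ ≠ 0 → ∃ x : E, ‖x‖ = 1 ∧ ‖φ x‖ = ‖φ‖) (g : StrongDual ℝ E) :
    ∃ x : E, ‖x‖ ≤ 1 ∧ g x = ‖g‖ := by
  rcases eq_or_ne g 0 with rfl | hg
  · exact ⟨0, by simp, by simp⟩
  · let φ : StrongDual 𝕜 E := g.extendRCLike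
    have hφ : ‖φ‖ = ‖g‖ := StrongDual.norm_extendRCLike g
    have hφ0 : φ ≠ 0 := by
      rw [← norm_ne_zero_iff, hφ]
      exact norm_ne_zero_iff.2 hg
    obtain ⟨x, hx1, hx2⟩ := hatt φ hφ0
    obtain ⟨c, hc1, hc2⟩ := RCLike.exists_norm_eq_mul_self (φ x)
    refine ⟨c • x, ?_, ?_⟩
    · rw [norm_smul, hc1, hx1, one_mul]
    · rw [← StrongDual.re_extendRCLike_apply (𝕜 := 𝕜) g (c • x)]
      have h1 : (g.extendRCLike : StrongDual 𝕜 E) (c • x) = c * φ x := by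
        rw [map_smul]; rfl
      rw [h1, ← hc2, RCLike.ofReal_re, hx2, hφ]

lemma exists_subseq [NormedSpace ℝ E] [IsScalarTower ℝ 𝕜 E]
    (hE : ∀ g : StrongDual ℝ E, ∃ x : E, ‖x‖ ≤ 1 ∧ g x = ‖g‖) (F : ℕ → StrongDual 𝕜 E) {C : ℝ}
    (hF : ∀ k, ‖F k‖ ≤ C) :
    ∃ u : ℕ → ℕ, StrictMono u ∧ ∀ x, ∃ l : 𝕜, Tendsto (fun k => F (u k) x) atTop (𝓝 l) := by
  have hC : 0 ≤ C := (norm_nonneg _).trans (hF 0)
  let f : ℕ → StrongDual ℝ E := fun k => RCLike.reCLM.comp ((F k).restrictScalars ℝ)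
  have hf : ∀ k x, f k x = RCLike.re (F k x) := fun k x => rfl
  have hfn : ∀ k, ‖f k‖ ≤ C := by
    intro k
    refine (f k).opNorm_le_bound hC fun x => ?_
    rw [hf, Real.norm_eq_abs]
    exact (RCLike.abs_re_le_norm _).trans ((F k).le_of_opNorm_le (hF k) x)
  obtain ⟨u, hu, φ, hφ⟩ := Pool.Agent.H548R3.Pryce.exists_convergent_subseq hE f hfn
  refine ⟨u, hu, fun x => ?_⟩
  have hre : ∀ y, Tendsto (fun k => ((RCLike.re (F (u k) y) : ℝ) : 𝕜)) atTop (𝓝 ((φ y : ℝ) : 𝕜)) :=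
    fun y => (RCLike.continuous_ofReal.tendsto _).comp (hφ y)
  have him : ∀ k, (RCLike.im (F (u k) x) : ℝ) = - RCLike.re (F (u k) ((RCLike.I : 𝕜) • x)) := by
    intro k
    rw [map_smul, smul_eq_mul, RCLike.I_mul_re, neg_neg]
  refine ⟨((φ x : ℝ) : 𝕜) + ((-(φ ((RCLike.I : 𝕜) • x)) : ℝ) : 𝕜) * RCLike.I, ?_⟩
  have h1 : ∀ k, F (u k) x = ((RCLike.re (F (u k) x) : ℝ) : 𝕜) +
      ((-(RCLike.re (F (u k) ((RCLike.I : 𝕜) • x))) : ℝ) : 𝕜) * RCLike.I := by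
    intro k
    rw [← him k]
    exact (RCLike.re_add_im _).symm
  have h2 : Tendsto (fun k => ((RCLike.re (F (u k) x) : ℝ) : 𝕜) +
      ((-(RCLike.re (F (u k) ((RCLike.I : 𝕜) • x))) : ℝ) : 𝕜) * RCLike.I) atTop
      (𝓝 (((φ x : ℝ) : 𝕜) + ((-(φ ((RCLike.I : 𝕜) • x)) : ℝ) : 𝕜) * RCLike.I)) := by
    refine (hre x).add (Tendsto.mul_const _ ?_)
    push_cast
    exact (hre _).neg
  exact h2.congr fun k => (h1 k).symm

lemma finite_of_isometry (V : Type*) [NormedAddCommGroup V] [NormedSpace 𝕜 V]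
    [FiniteDimensional 𝕜 V] (ι : E →ₗᵢ[𝕜] V) : FiniteDimensional 𝕜 E :=
  Module.Finite.of_injective ι.toLinearMap ι.injective

lemma dual_infinite (hfin : ¬ FiniteDimensional 𝕜 E) : ¬ FiniteDimensional 𝕜 (StrongDual 𝕜 E) := by
  intro h
  apply hfin
  have h2 : FiniteDimensional 𝕜 (StrongDual 𝕜 (StrongDual 𝕜 E)) := inferInstance
  exact finite_of_isometry (StrongDual 𝕜 (StrongDual 𝕜 E))
    (NormedSpace.inclusionInDoubleDualLi (E := E) 𝕜)

lemma exists_null (hfin : ¬ FiniteDimensional 𝕜 E)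
    (hsub : ∀ (F : ℕ → StrongDual 𝕜 E) (C : ℝ), (∀ k, ‖F k‖ ≤ C) →
      ∃ u : ℕ → ℕ, StrictMono u ∧ ∀ x, ∃ l : 𝕜, Tendsto (fun k => F (u k) x) atTop (𝓝 l)) :
    ∃ g : ℕ → StrongDual 𝕜 E, (∀ n, ‖g n‖ = 1) ∧ ∀ x, Tendsto (fun n => g n x) atTop (𝓝 0) := by
  obtain ⟨R, F, hR, hF1, hF2⟩ := exists_seq_norm_le_one_le_norm_sub (dual_infinite hfin)
  obtain ⟨u, hu, hlim⟩ := hsub F R hF1
  let d : ℕ → StrongDual 𝕜 E := fun k => F (u (2 * k)) - F (u (2 * k + 1))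
  have hd : ∀ k, 1 ≤ ‖d k‖ := by
    intro k
    refine hF2 fun h => ?_
    have := hu.injective h
    omega
  have hd0 : ∀ x, Tendsto (fun k => d k x) atTop (𝓝 0) := by
    intro x
    obtain ⟨l, hl⟩ := hlim x
    have h1 : Tendsto (fun k : ℕ => 2 * k) atTop atTop :=
      tendsto_atTop_mono (fun k => by rw [id]; omega) tendsto_id
    have h2 : Tendsto (fun k : ℕ => 2 * k + 1) atTop atTop :=
      tendsto_atTop_mono (fun k => by rw [id]; omega) tendsto_id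
    have h3 := (hl.comp h1).sub (hl.comp h2)
    rw [sub_self] at h3
    exact h3
  refine ⟨fun k => ((‖d k‖⁻¹ : ℝ) : 𝕜) • d k, fun k => ?_, fun x => ?_⟩
  · have : 0 < ‖d k‖ := lt_of_lt_of_le one_pos (hd k)
    rw [norm_smul, RCLike.norm_ofReal, abs_of_pos (inv_pos.2 this), inv_mul_cancel₀ this.ne']
  · rw [tendsto_zero_iff_norm_tendsto_zero]
    have h1 := (hd0 x).norm
    rw [norm_zero] at h1
    refine squeeze_zero (fun k => norm_nonneg _) (fun k => ?_) h1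
    have h2 : (((‖d k‖⁻¹ : ℝ) : 𝕜) • d k) x = ((‖d k‖⁻¹ : ℝ) : 𝕜) * d k x := rfl
    have : 0 < ‖d k‖ := lt_of_lt_of_le one_pos (hd k)
    rw [h2, norm_mul, RCLike.norm_ofReal, abs_of_pos (inv_pos.2 this)]
    exact mul_le_of_le_one_left (norm_nonneg _) (inv_le_one_of_one_le₀ (hd k))

end Proof

/-- **MP_479f73_an, Q1.** If the pair `(E, ℓ_∞)` has the weak maximizing property, then `E` is
finite dimensional. -/
theorem result (𝕜 : Type*) [RCLike 𝕜] (E : Type*) [NormedAddCommGroup E] [NormedSpace 𝕜 E]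
    (h : HasWMP 𝕜 E (ℕ →ᵇ 𝕜)) : FiniteDimensional 𝕜 E := by
  by_contra hfin
  let : NormedSpace ℝ E := NormedSpace.restrictScalars ℝ 𝕜 E
  have : IsScalarTower ℝ 𝕜 E := .restrictScalars ℝ 𝕜 E
  have hE : ∀ g : StrongDual ℝ E, ∃ x : E, ‖x‖ ≤ 1 ∧ g x = ‖g‖ :=
    real_attains (𝕜 := 𝕜) (attains_functional h)
  obtain ⟨g, hg1, hg2⟩ := exists_null hfin fun F C hF => exists_subseq hE F hF
  exact no_null h g hg1 hg2

end Pool.Agent.Results.MP_479f73_an.WMPFiniteDim
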